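import Pool.Agent.H4Z.BeltC

set_option autoImplicit false

open Set unitInterval
open scoped ContDiff

namespace Pool.Agent.Results.MP_49f0e1_gt.BeltTrick

/-- Euclidean three-space. -/
abbrev E3 := EuclideanSpace ℝ (Fin 3)

/-- The round unit sphere in Euclidean three-space, an orientable Riemannian surface. -/
abbrev S2 := Metric.sphere (0 : E3) 1

/-- A curve `[0,1] → S²` seen as a map `ℝ → ℝ³` (constant to the left of 0 and the right of 1). -/
noncomputable def toR (γ : I → S2) : ℝ → E3 := fun u => (γ (projIcc 0 1 zero_le_one u) : E3)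

/-- A piecewise smooth closed curve: `γ 0 = γ 1`, and `γ` is smooth on each closed piece of a
finite partition `0 = a 0 < a 1 < ⋯ < a (n + 1) = 1`. -/
def IsClosedCurve (γ : I → S2) : Prop :=
  γ 0 = γ 1 ∧ ∃ (n : ℕ) (a : Fin (n + 2) → ℝ), StrictMono a ∧ a 0 = 0 ∧ a (Fin.last _) = 1 ∧
    ∀ i : Fin (n + 1), ContDiffOn ℝ ∞ (toR γ) (Icc (a i.castSucc) (a i.succ))

/-- The length in the round metric: the integral of the speed. -/
noncomputable def length (γ : I → S2) : ℝ := ∫ u in (0 : ℝ)..1, ‖deriv (toR γ) u‖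

/-- The doubled curve `t ↦ γ (2 t mod 1)`. -/
noncomputable def double (γ : I → S2) : I → S2 := fun t =>
  γ ⟨Int.fract (2 * (t : ℝ)), Int.fract_nonneg _, (Int.fract_lt_one _).le⟩

/-- A family of closed curves depending continuously on a parameter in `P`. -/
def IsFamily {P : Type} [TopologicalSpace P] (γ : P → I → S2) : Prop :=
  (∀ s, IsClosedCurve (γ s)) ∧ Continuous (fun p : P × I => γ p.1 p.2)

/-- `H` is a deformation of the family `γ` to a family of points. -/
def IsDeformation {P : Type} [TopologicalSpace P] (γ : P → I → S2) (H : I × P → I → S2) : Prop :=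
  IsFamily H ∧ (∀ s, H (0, s) = γ s) ∧ ∀ s, ∃ x, ∀ t, H (1, s) t = x

theorem rot_mem (s : S2) (t : ℝ) : (!₂[(s : E3) 0,
    Real.cos (2 * Real.pi * t) * (s : E3) 1 - Real.sin (2 * Real.pi * t) * (s : E3) 2,
    Real.sin (2 * Real.pi * t) * (s : E3) 1 + Real.cos (2 * Real.pi * t) * (s : E3) 2] : E3)
    ∈ S2 := by
  rw [← H4Z.Belt.Gam_explicit]; exact H4Z.Belt.Gam_mem s t

/-- The two-parameter family indexed by `s ∈ S²`: the point `s` rotated about the first coordinate
axis by the angle `2 π t`. -/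
noncomputable def rotFamily : S2 → I → S2 := fun s t => ⟨!₂[(s : E3) 0,
    Real.cos (2 * Real.pi * t) * (s : E3) 1 - Real.sin (2 * Real.pi * t) * (s : E3) 2,
    Real.sin (2 * Real.pi * t) * (s : E3) 1 + Real.cos (2 * Real.pi * t) * (s : E3) 2],
  rot_mem s t⟩

theorem rot_eq (s : S2) (t : I) : (rotFamily s t : E3) = H4Z.Belt.Gam (s, t) :=
  (H4Z.Belt.Gam_explicit s t).symm

theorem closed_of (γ : I → S2) (g : ℝ → E3) (hg : ContDiff ℝ ∞ g) (h : ∀ t : I, (γ t : E3) = g t)
    (hc : g 0 = g 1) : IsClosedCurve γ := by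
  refine ⟨Subtype.ext (by rw [h, h]; exact hc), 0, ![0, 1], ?_, rfl, rfl, fun i => ?_⟩
  · intro i j hij
    fin_cases i <;> fin_cases j <;> simp_all
  · have hi : i = 0 := Subsingleton.elim (α := Fin 1) _ _
    subst hi
    refine hg.contDiffOn.congr fun u hu => ?_
    have hu' : u ∈ Icc (0 : ℝ) 1 := by simpa using hu
    simp only [toR]
    rw [h, projIcc_of_mem _ hu']

theorem length_le (γ : I → S2) (g : ℝ → E3) (h : ∀ t : I, (γ t : E3) = g t) (C : ℝ)
    (hC : ∀ t ∈ Icc (0 : ℝ) 1, ‖deriv g t‖ ≤ C) : length γ < C + 1 := by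
  have h1 : ‖length γ‖ ≤ C * |1 - 0| := by
    apply intervalIntegral.norm_integral_le_of_norm_le_const_ae
    filter_upwards [MeasureTheory.Measure.ae_ne MeasureTheory.volume (1 : ℝ)] with u hu1 hu
    rw [uIoc_of_le zero_le_one] at hu
    have hu' : u ∈ Ioo (0 : ℝ) 1 := ⟨hu.1, lt_of_le_of_ne hu.2 hu1⟩
    have e : toR γ =ᶠ[nhds u] g := by
      filter_upwards [Ioo_mem_nhds hu'.1 hu'.2] with w hw
      simp only [toR]
      rw [h, projIcc_of_mem _ (Ioo_subset_Icc_self hw)]
    rw [e.deriv_eq, norm_norm]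
    exact hC u (Ioo_subset_Icc_self hu')
  have h2 := le_abs_self (length γ)
  rw [Real.norm_eq_abs] at h1
  norm_num at h1
  linarith

open H4Z.Belt in
/-- On the round sphere the doubled rotation family deforms (even smoothly) to a family of points
through curves of length below some `L`, while the rotation family itself has no deformation to a
family of points at all, whatever the lengths. -/
theorem result :
    IsFamily rotFamily ∧
    (∃ L : ℝ, 0 < L ∧ ∃ H : I × S2 → I → S2,
      IsDeformation (fun s => double (rotFamily s)) H ∧ (∀ p, length (H p) < L) ∧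
      ∃ F : (ℝ × E3) × ℝ → E3, ContDiff ℝ ∞ F ∧
        ∀ (τ : I) (s : S2) (t : I), (H (τ, s) t : E3) = F ((τ, s), t)) ∧
    ¬ ∃ H : I × S2 → I → S2, IsDeformation rotFamily H := by
  refine ⟨⟨fun s => closed_of _ (fun u => Gam (s, u))
    (contDiff_Gam.comp (contDiff_const.prodMk contDiff_id)) (rot_eq s) (Gam_closed _), ?_⟩, ?_, ?_⟩
  · refine continuous_induced_rng.2 ?_
    have e : (Subtype.val ∘ fun p : S2 × I => rotFamily p.1 p.2) =
        fun p : S2 × I => Gam ((p.1 : E3), (p.2 : ℝ)) := funext fun p => rot_eq _ _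
    rw [e]
    exact contDiff_Gam.continuous.comp (by fun_prop)
  · obtain ⟨C, hC0, hC⟩ := speed_bound
    refine ⟨C + 1, by linarith, fun p t => ⟨Con ((p.1, p.2), t), Con_mem _ _ _⟩,
      ⟨⟨fun p => ?_, ?_⟩, fun s => ?_, fun s => ⟨s, fun t => ?_⟩⟩, fun p => ?_, Con, contDiff_Con,
      fun τ s t => rfl⟩
    · exact closed_of _ (fun u => Con ((p.1, p.2), u))
        (contDiff_Con.comp (contDiff_const.prodMk contDiff_id)) (fun t => rfl) (Con_closed _ _)
    · refine continuous_induced_rng.2 ?_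
      exact contDiff_Con.continuous.comp
        (f := fun p : (I × S2) × I => ((((p.1.1 : ℝ), (p.1.2 : E3)), (p.2 : ℝ)) : (ℝ × E3) × ℝ))
        (by fun_prop)
    · funext t
      apply Subtype.ext
      simp only [double]
      rw [rot_eq]
      exact Con_zero _ _
    · exact Subtype.ext (Con_one _ _)
    · exact length_le _ (fun u => Con ((p.1, p.2), u)) (fun t => rfl) C
        (hC _ p.1.2 _ p.2.2)
  · rintro ⟨H, ⟨h1, h2⟩, h3, h4⟩
    refine no_contraction (fun p => H (p.1, p.2.1) p.2.2)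
      (h2.comp (f := fun p : I × (S2 × I) => ((p.1, p.2.1), p.2.2)) (by fun_prop))
      (fun τ s => (h1 (τ, s)).1) (fun s t => ?_) (fun s t => ?_)
    · simp only [h3]
      rw [rot_eq]
      exact io_rot _ _
    · obtain ⟨x, hx⟩ := h4 s
      simp only [hx]

end Pool.Agent.Results.MP_49f0e1_gt.BeltTrick
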